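import Pool.Agent.H78.S.Targets

/-!
# Theorem S (MP_9d0bb7_lc): row ITP (helper59)
-/

set_option autoImplicit false

open Set Pool.Agent.H77.BC
open scoped Pointwise

namespace Pool.Agent.H59.SG

open Pool.Agent.H78.S

/-- the fibres of the multiplication on `A × B` -/
theorem prod_fib {M : Type} (U : RU M) {Γ : Type} [Group Γ] [Cod M Γ] [DG U Γ]
    (A B : Subgroup Γ) (hA : U.D (A : Set Γ)) (hB : U.D (B : Set Γ)) (Y : Set Γ) (hY : U.D Y)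
    (hYn : Y.Nonempty) (hYP : ∀ y ∈ Y, ∃ a ∈ A, ∃ b ∈ B, y = a * b) :
    U.D {p : Γ × Γ | p ∈ (A : Set Γ) ×ˢ (B : Set Γ) ∧ p.1 * p.2 ∈ Y} ∧
    {p : Γ × Γ | p ∈ (A : Set Γ) ×ˢ (B : Set Γ) ∧ p.1 * p.2 ∈ Y}.Nonempty ∧
    U.R {p : Γ × Γ | p ∈ (A : Set Γ) ×ˢ (B : Set Γ) ∧ p.1 * p.2 ∈ Y} =
      U.R Y + U.R ((A ⊓ B : Subgroup Γ) : Set Γ) := by
  have hmul : DFn U (fun p : Γ × Γ => p.1 * p.2) := DG.mul
  have hD : U.D {p : Γ × Γ | p ∈ (A : Set Γ) ×ˢ (B : Set Γ) ∧ p.1 * p.2 ∈ Y} :=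
    D_and (D_prod hA hB) (D_subst (p := fun y : Γ => y ∈ Y) hY hmul)
  have hne : {p : Γ × Γ | p ∈ (A : Set Γ) ×ˢ (B : Set Γ) ∧ p.1 * p.2 ∈ Y}.Nonempty := by
    obtain ⟨y, hy⟩ := hYn
    obtain ⟨a, ha, b, hb, rfl⟩ := hYP y hy
    exact ⟨(a, b), ⟨ha, hb⟩, hy⟩
  refine ⟨hD, hne, ?_⟩
  have him : (fun p : Γ × Γ => p.1 * p.2) ''
      {p : Γ × Γ | p ∈ (A : Set Γ) ×ˢ (B : Set Γ) ∧ p.1 * p.2 ∈ Y} = Y := by
    ext y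
    constructor
    · rintro ⟨p, hp, rfl⟩
      exact hp.2
    · intro hy
      obtain ⟨a, ha, b, hb, rfl⟩ := hYP y hy
      exact ⟨(a, b), ⟨⟨ha, hb⟩, hy⟩, rfl⟩
  have key := (l_RKB U).fib_eq (n := U.R ((A ⊓ B : Subgroup Γ) : Set Γ)) hD hmul hne ?_
  · rwa [him] at key
  rw [him]
  intro y hy
  obtain ⟨a, ha, b, hb, rfl⟩ := hYP y hy
  have hAB : U.D ((A ⊓ B : Subgroup Γ) : Set Γ) := by
    rw [Subgroup.coe_inf]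
    exact D_inter hA hB
  have h1 : {p : Γ × Γ | p ∈ {p : Γ × Γ | p ∈ (A : Set Γ) ×ˢ (B : Set Γ) ∧ p.1 * p.2 ∈ Y} ∧
      p.1 * p.2 = a * b} =
      (fun c : Γ => (a * c, c⁻¹ * b)) '' ((A ⊓ B : Subgroup Γ) : Set Γ) := by
    ext ⟨u, v⟩
    constructor
    · rintro ⟨⟨⟨hu, hv⟩, -⟩, h⟩
      have h2 : a⁻¹ * u = b * v⁻¹ := by
        rw [inv_mul_eq_iff_eq_mul, ← mul_assoc, eq_mul_inv_iff_mul_eq]
        exact h
      refine ⟨a⁻¹ * u, ⟨A.mul_mem (A.inv_mem ha) hu, ?_⟩, ?_⟩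
      · show a⁻¹ * u ∈ B
        rw [h2]
        exact B.mul_mem hb (B.inv_mem hv)
      · show (a * (a⁻¹ * u), (a⁻¹ * u)⁻¹ * b) = (u, v)
        rw [mul_inv_cancel_left]
        congr 1
        rw [h2]
        group
    · rintro ⟨c, ⟨hc1, hc2⟩, hc⟩
      obtain ⟨h3, h4⟩ := Prod.mk.injEq _ _ _ _ ▸ hc
      subst h3 h4
      have h5 : a * c * (c⁻¹ * b) = a * b := by group
      refine ⟨⟨⟨A.mul_mem ha hc1, B.mul_mem (B.inv_mem hc2) hb⟩, ?_⟩, h5⟩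
      show a * c * (c⁻¹ * b) ∈ Y
      rw [h5]
      exact hy
  rw [h1]
  refine (l_RKB U).inj hAB ?_ ⟨1, Subgroup.one_mem _⟩ ?_
  · exact DFn_pair (DFn_gmul (DFn_const a) DFn_id) (DFn_gmul (DFn_ginv DFn_id) (DFn_const b))
  · intro c _ d _ h
    exact mul_left_cancel (Prod.mk.injEq _ _ _ _ ▸ h).1

theorem pf_ITP (hBGA : T_BGA) (hIRG : T_IRG) (_hIRP : T_IRP) : T_ITP := by
  intro M U Γ _ _ _ H A B hH hA hB hAH hBH hR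
  have hmul : DFn U (fun p : Γ × Γ => p.1 * p.2) := DG.mul
  have hIrr := (hIRG U H hH).1
  -- the set of products
  set P : Set Γ := {h | ∃ a ∈ A, ∃ b ∈ B, h = a * b} with hP
  have hPim : P = (fun p : Γ × Γ => p.1 * p.2) '' ((A : Set Γ) ×ˢ (B : Set Γ)) := by
    ext y
    constructor
    · rintro ⟨a, ha, b, hb, rfl⟩
      exact ⟨(a, b), ⟨ha, hb⟩, rfl⟩
    · rintro ⟨p, ⟨h1, h2⟩, rfl⟩
      exact ⟨p.1, h1, p.2, h2, rfl⟩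
  have hPD : U.D P := by
    rw [hPim]
    exact DFn_image hmul (D_prod hA.1 hB.1)
  have hPn : P.Nonempty := ⟨1, 1, A.one_mem, 1, B.one_mem, (mul_one 1).symm⟩
  have hPH : P ⊆ H := by
    rintro y ⟨a, ha, b, hb, rfl⟩
    exact H.mul_mem (hAH ha) (hBH hb)
  obtain ⟨-, -, hRP⟩ := prod_fib U A B hA.1 hB.1 P hPD hPn (fun y hy => hy)
  have hfull : {p : Γ × Γ | p ∈ (A : Set Γ) ×ˢ (B : Set Γ) ∧ p.1 * p.2 ∈ P} =
      (A : Set Γ) ×ˢ (B : Set Γ) := by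
    ext p
    exact ⟨fun h => h.1, fun h => ⟨h, p.1, h.1, p.2, h.2, rfl⟩⟩
  rw [hfull] at hRP
  have hprod := (l_RKB U).prod hA.1 hB.1 ⟨1, A.one_mem⟩ ⟨1, B.one_mem⟩
  have hPR : U.R (H : Set Γ) ≤ U.R P := by omega
  have hPB : Big U (H : Set Γ) P := ⟨P, hPD, hPn, hPH, subset_rfl, hPR⟩
  refine ⟨hPB, ?_⟩
  intro Z hZ
  obtain ⟨Y, hYD, hYn, hYH, hYZ, hYR⟩ := (hBGA U (H : Set Γ) hIrr).1 P Z hPB hZ
  obtain ⟨hW1, hW2, hW3⟩ := prod_fib U A B hA.1 hB.1 Y hYD hYn (fun y hy => (hYZ hy).1)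
  refine ⟨_, hW1, hW2, fun p hp => hp.1, fun p hp => (hYZ hp.2).2, ?_⟩
  have hle := (l_RKA U).mono hPD hH.1 hPn hPH
  omega

end Pool.Agent.H59.SG
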