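import Pool.Agent.H78.S.Targets

/-!
# Theorem S (MP_9d0bb7_lc): row P21 (helper59)
-/

set_option autoImplicit false

open Set Pool.Agent.H77.BC
open scoped Pointwise

namespace Pool.Agent.H59.SG

open Pool.Agent.H78.S

theorem D_iff {M : Type} {U : RU M} {α : Type} [Cod M α] [Ful U α] {p q : α → Prop}
    (hp : U.D {a | p a}) (hq : U.D {a | q a}) : U.D {a | (p a ↔ q a)} := by
  have h := D_and (D_imp hp hq) (D_imp hq hp)
  have e : {a | (p a ↔ q a)} = {a | (p a → q a) ∧ (q a → p a)} := by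
    ext a
    exact iff_def
  rwa [e]

/-- the group which preserves `X`, a relation on pairs and two relations on triples -/
def Pres {G S : Type} [Group G] [MulAction G S] (X : Set S) (E : Set (S × S))
    (A B : Set (S × S × S)) : Subgroup G where
  carrier := {h | (∀ y : S, (y ∈ X ↔ h • y ∈ X)) ∧
    (∀ p : S × S, (p ∈ E ↔ (h • p.1, h • p.2) ∈ E)) ∧
    (∀ p : S × S × S, (p ∈ A ↔ (h • p.1, h • p.2.1, h • p.2.2) ∈ A)) ∧
    ∀ p : S × S × S, (p ∈ B ↔ (h • p.1, h • p.2.1, h • p.2.2) ∈ B)}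
  one_mem' := ⟨fun y => by rw [one_smul], fun p => by rw [one_smul, one_smul],
    fun p => by rw [one_smul, one_smul, one_smul], fun p => by rw [one_smul, one_smul, one_smul]⟩
  mul_mem' := by
    rintro a b ⟨a1, a2, a3, a4⟩ ⟨b1, b2, b3, b4⟩
    refine ⟨fun y => ?_, fun p => ?_, fun p => ?_, fun p => ?_⟩
    · rw [mul_smul, ← a1 (b • y)]
      exact b1 y
    · rw [mul_smul, mul_smul]
      exact (b2 p).trans (a2 (b • p.1, b • p.2))
    · rw [mul_smul, mul_smul, mul_smul]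
      exact (b3 p).trans (a3 (b • p.1, b • p.2.1, b • p.2.2))
    · rw [mul_smul, mul_smul, mul_smul]
      exact (b4 p).trans (a4 (b • p.1, b • p.2.1, b • p.2.2))
  inv_mem' := by
    rintro a ⟨a1, a2, a3, a4⟩
    refine ⟨fun y => ?_, fun p => ?_, fun p => ?_, fun p => ?_⟩
    · have h := a1 (a⁻¹ • y)
      rw [smul_inv_smul] at h
      exact h.symm
    · have h := a2 (a⁻¹ • p.1, a⁻¹ • p.2)
      rw [smul_inv_smul, smul_inv_smul] at h
      exact h.symm
    · have h := a3 (a⁻¹ • p.1, a⁻¹ • p.2.1, a⁻¹ • p.2.2)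
      rw [smul_inv_smul, smul_inv_smul, smul_inv_smul] at h
      exact h.symm
    · have h := a4 (a⁻¹ • p.1, a⁻¹ • p.2.1, a⁻¹ • p.2.2)
      rw [smul_inv_smul, smul_inv_smul, smul_inv_smul] at h
      exact h.symm

theorem D_Pres {M : Type} (U : RU M) {G S : Type} [Group G] [MulAction G S] [Cod M G]
    [Cod M S] [DG U G] [Ful U S] (hact : DFn U (fun p : G × S => p.1 • p.2)) (X : Set S)
    (E : Set (S × S)) (A B : Set (S × S × S)) (hX : U.D X) (hE : U.D E) (hA : U.D A)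
    (hB : U.D B) : U.D ((Pres X E A B : Subgroup G) : Set G) := by
  have a1 : U.D {h : G | ∀ y : S, (y ∈ X ↔ h • y ∈ X)} :=
    D_forall (p := fun (h : G) (y : S) => (y ∈ X ↔ h • y ∈ X))
      (D_iff (D_subst (p := fun y : S => y ∈ X) hX DFn_snd)
        (D_subst (p := fun y : S => y ∈ X) hX hact))
  have a2 : U.D {h : G | ∀ p : S × S, (p ∈ E ↔ (h • p.1, h • p.2) ∈ E)} :=
    D_forall (p := fun (h : G) (p : S × S) => (p ∈ E ↔ (h • p.1, h • p.2) ∈ E))
      (D_iff (D_subst (p := fun y : S × S => y ∈ E) hE DFn_snd)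
        (D_subst (p := fun y : S × S => y ∈ E) hE
          (DFn_pair
            (DFn_comp hact (DFn_pair DFn_fst (DFn_comp DFn_fst DFn_snd)))
            (DFn_comp hact (DFn_pair DFn_fst (DFn_comp DFn_snd DFn_snd))))))
  have a3 : ∀ A : Set (S × S × S), U.D A →
      U.D {h : G | ∀ p : S × S × S, (p ∈ A ↔ (h • p.1, h • p.2.1, h • p.2.2) ∈ A)} :=
    fun A hA => D_forall (p := fun (h : G) (p : S × S × S) =>
        (p ∈ A ↔ (h • p.1, h • p.2.1, h • p.2.2) ∈ A))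
      (D_iff (D_subst (p := fun y : S × S × S => y ∈ A) hA DFn_snd)
        (D_subst (p := fun y : S × S × S => y ∈ A) hA
          (DFn_pair
            (DFn_comp hact (DFn_pair DFn_fst (DFn_comp DFn_fst DFn_snd)))
            (DFn_pair
              (DFn_comp hact (DFn_pair DFn_fst (DFn_comp (DFn_comp DFn_fst DFn_snd) DFn_snd)))
              (DFn_comp hact (DFn_pair DFn_fst (DFn_comp (DFn_comp DFn_snd DFn_snd) DFn_snd)))))))
  exact D_and a1 (D_and a2 (D_and (a3 A hA) (a3 B hB)))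

/-- elements which preserve the relations of a line induce automorphisms of the field -/
theorem exists_aut {G S K : Type} [Group G] [MulAction G S] [Field K] (X : Set S) (f : S → K)
    (E : Set (S × S)) (A B : Set (S × S × S))
    (hE : ∀ y z, (y, z) ∈ E ↔ y ∈ X ∧ z ∈ X ∧ f y = f z)
    (hA : A = {p : S × S × S | p.1 ∈ X ∧ p.2.1 ∈ X ∧ p.2.2 ∈ X ∧ f p.1 + f p.2.1 = f p.2.2})
    (hB : B = {p : S × S × S | p.1 ∈ X ∧ p.2.1 ∈ X ∧ p.2.2 ∈ X ∧ f p.1 * f p.2.1 = f p.2.2})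
    (honto : ∀ k : K, ∃ y ∈ X, f y = k) (h : G) (hh : h ∈ (Pres X E A B : Subgroup G)) :
    ∃ φ : K ≃+* K, ∀ y ∈ X, h • y ∈ X ∧ f (h • y) = φ (f y) := by
  obtain ⟨h1, h2, h3, h4⟩ := hh
  choose s hs1 hs2 using honto
  have hw : ∀ y ∈ X, f (h • y) = f (h • s (f y)) := by
    intro y hy
    have h5 : (y, s (f y)) ∈ E := (hE _ _).2 ⟨hy, hs1 _, (hs2 _).symm⟩
    exact ((hE _ _).1 ((h2 _).1 h5)).2.2
  have hinj : Function.Injective (fun k : K => f (h • s k)) := by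
    intro a b hab
    have h5 : (h • s a, h • s b) ∈ E := (hE _ _).2 ⟨(h1 _).1 (hs1 a), (h1 _).1 (hs1 b), hab⟩
    have h6 := ((hE _ _).1 ((h2 (s a, s b)).2 h5)).2.2
    rwa [hs2, hs2] at h6
  have hsurj : Function.Surjective (fun k : K => f (h • s k)) := by
    intro k
    have h5 : h⁻¹ • s k ∈ X := by
      rw [h1, smul_inv_smul]
      exact hs1 k
    refine ⟨f (h⁻¹ • s k), ?_⟩
    show f (h • s (f (h⁻¹ • s k))) = k
    rw [← hw _ h5, smul_inv_smul, hs2]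
  refine ⟨{ Equiv.ofBijective (fun k : K => f (h • s k)) ⟨hinj, hsurj⟩ with
    map_mul' := ?_
    map_add' := ?_ }, ?_⟩
  · intro a b
    show f (h • s (a * b)) = f (h • s a) * f (h • s b)
    have h5 : (s a, s b, s (a * b)) ∈ B := by
      rw [hB]
      refine ⟨hs1 _, hs1 _, hs1 _, ?_⟩
      rw [hs2, hs2, hs2]
    have h6 := (h4 _).1 h5
    rw [hB] at h6
    exact h6.2.2.2.symm
  · intro a b
    show f (h • s (a + b)) = f (h • s a) + f (h • s b)
    have h5 : (s a, s b, s (a + b)) ∈ A := by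
      rw [hA]
      refine ⟨hs1 _, hs1 _, hs1 _, ?_⟩
      rw [hs2, hs2, hs2]
    have h6 := (h3 _).1 h5
    rw [hA] at h6
    exact h6.2.2.2.symm
  · intro y hy
    exact ⟨(h1 y).1 hy, hw y hy⟩

theorem pf_P21 (hLCJ : T_LCJ) (hLFI : T_LFI) (hLNK : T_LNK) (hCTB : T_CTB) (hHIC : T_HIC)
    (hCJH : T_CJH) : T_P21 := by
  intro M U G S _ _ _ _ n x hF hI g σ hg hσ0 i hi hσi E hE hk
  have _ := hF.dg
  have _ := hF.ful
  have hact := hF.act
  have hctx := (hHIC U x hF i hi).1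
  obtain ⟨l1, l2, l3⟩ := hLCJ U x hF g σ hg hσ0 i hi E hE
  obtain ⟨-, -, hinj⟩ := hLFI U hact _ _ _ _ _ hctx
  have hmv : mv g E = E := by
    refine hinj ?_ hE ?_
    · rw [hσi] at l1
      exact l1
    · show kap (TT U G x 0) (mv g E) = kap (TT U G x 0) E
      rw [l2, hk]
  have key : ∀ (j : Fin (n + 2)) (F : Set (S × S)), j = i → F = E →
      (∀ (L : LF U G x i E) (L' : LF U G x j F), ∃ φ : L.K ≃+* L'.K,
        ∀ y ∈ XX U G x i, g • y ∈ XX U G x j ∧ L'.f (g • y) = φ (L.f y)) →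
      ∀ L : LF U G x i E, ∃ φ : L.K ≃+* L.K,
        ∀ y ∈ XX U G x i, g • y ∈ XX U G x i ∧ L.f (g • y) = φ (L.f y) := by
    intro j F hj hF' h L
    subst hj hF'
    exact h L L
  have hφ := key (σ i) (mv g E) hσi hmv l3
  obtain ⟨-, hXD, -⟩ := hCTB U hact _ _ _ _ _ hctx
  obtain ⟨c1, c2, c3, -⟩ := hCJH U x hF g σ hg
  have hgX : ∀ y : S, (y ∈ XX U G x i ↔ g • y ∈ XX U G x i) := by
    intro y
    have h1 := c3 hσ0 i
    rw [hσi] at h1
    constructor
    · intro hy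
      rw [← h1]
      exact Set.smul_mem_smul_set hy
    · intro hy
      rw [← h1] at hy
      exact Set.smul_mem_smul_set_iff.1 hy
  -- the automorphism is trivial
  have htriv : ∀ L : LF U G x i E, ∀ y ∈ XX U G x i, g • y ∈ XX U G x i ∧
      L.f (g • y) = L.f y := by
    intro L y hy
    obtain ⟨-, -, -, -, hED, -, -, hEm, -⟩ := hLNK U hact _ _ _ _ _ hctx E L
    obtain ⟨φ, hφ1⟩ := hφ L
    refine ⟨(hgX y).1 hy, ?_⟩
    set A : Set (S × S × S) := {p : S × S × S | p.1 ∈ XX U G x i ∧ p.2.1 ∈ XX U G x i ∧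
      p.2.2 ∈ XX U G x i ∧ L.f p.1 + L.f p.2.1 = L.f p.2.2} with hA
    set B : Set (S × S × S) := {p : S × S × S | p.1 ∈ XX U G x i ∧ p.2.1 ∈ XX U G x i ∧
      p.2.2 ∈ XX U G x i ∧ L.f p.1 * L.f p.2.1 = L.f p.2.2} with hB
    have hgam : g ∈ (Pres (XX U G x i) E A B : Subgroup G) := by
      refine ⟨hgX, ?_, ?_, ?_⟩
      · rintro ⟨u, v⟩
        rw [hEm]
        show _ ↔ (g • u, g • v) ∈ E
        rw [hEm, ← hgX u, ← hgX v]
        constructor
        · rintro ⟨hu, hv, h⟩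
          exact ⟨hu, hv, by rw [(hφ1 u hu).2, (hφ1 v hv).2, h]⟩
        · rintro ⟨hu, hv, h⟩
          rw [(hφ1 u hu).2, (hφ1 v hv).2] at h
          exact ⟨hu, hv, φ.injective h⟩
      · rintro ⟨u, v, w⟩
        show (u ∈ XX U G x i ∧ v ∈ XX U G x i ∧ w ∈ XX U G x i ∧ L.f u + L.f v = L.f w) ↔
          (g • u ∈ XX U G x i ∧ g • v ∈ XX U G x i ∧ g • w ∈ XX U G x i ∧
            L.f (g • u) + L.f (g • v) = L.f (g • w))
        rw [← hgX u, ← hgX v, ← hgX w]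
        constructor
        · rintro ⟨hu, hv, hw, h⟩
          exact ⟨hu, hv, hw, by
            rw [(hφ1 u hu).2, (hφ1 v hv).2, (hφ1 w hw).2, ← map_add, h]⟩
        · rintro ⟨hu, hv, hw, h⟩
          rw [(hφ1 u hu).2, (hφ1 v hv).2, (hφ1 w hw).2, ← map_add] at h
          exact ⟨hu, hv, hw, φ.injective h⟩
      · rintro ⟨u, v, w⟩
        show (u ∈ XX U G x i ∧ v ∈ XX U G x i ∧ w ∈ XX U G x i ∧ L.f u * L.f v = L.f w) ↔
          (g • u ∈ XX U G x i ∧ g • v ∈ XX U G x i ∧ g • w ∈ XX U G x i ∧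
            L.f (g • u) * L.f (g • v) = L.f (g • w))
        rw [← hgX u, ← hgX v, ← hgX w]
        constructor
        · rintro ⟨hu, hv, hw, h⟩
          exact ⟨hu, hv, hw, by
            rw [(hφ1 u hu).2, (hφ1 v hv).2, (hφ1 w hw).2, ← map_mul, h]⟩
        · rintro ⟨hu, hv, hw, h⟩
          rw [(hφ1 u hu).2, (hφ1 v hv).2, (hφ1 w hw).2, ← map_mul] at h
          exact ⟨hu, hv, hw, φ.injective h⟩
    refine hI.aut hact _ _ _ _ _ hctx E L (Pres (XX U G x i) E A B) ?_ ?_ g hgam y hy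
    · exact D_Pres U hact _ _ _ _ hXD hED L.line.add L.line.mul
    · intro h hh
      exact exists_aut (XX U G x i) L.f E A B hEm hA hB L.line.onto h hh
  refine ⟨hmv, htriv, ?_⟩
  intro t ht
  have hconj : ∀ t ∈ TT U G x 0, g * t * g⁻¹ ∈ TT U G x 0 := by
    intro t ht
    have h1 := c2 0
    rw [hσ0] at h1
    rw [← h1, mem_cj]
    have h2 : g⁻¹ * (g * t * g⁻¹) * g⁻¹⁻¹ = t := by group
    rw [h2]
    exact ht
  refine ⟨hconj t ht, ?_⟩
  obtain ⟨L⟩ := hE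
  obtain ⟨m1, -, m3, -⟩ := hLNK U hact _ _ _ _ _ hctx E L
  have he : x 0 ∈ XX U G x i := hctx.mem
  have hgt := hconj t ht
  have hti : t⁻¹ ∈ TT U G x 0 := inv_mem ht
  obtain ⟨-, -, -, -, -, -, hTH, -, hHX, -⟩ := hCTB U hact _ _ _ _ _ hctx
  have hX1 : t • x 0 ∈ XX U G x i := hHX t (hTH ht) _ he
  have hX2 : t⁻¹ • x 0 ∈ XX U G x i := hHX _ (hTH hti) _ he
  have hg0 : g⁻¹ • x 0 = x 0 := by
    rw [inv_smul_eq_iff, hg 0, hσ0]
  have e1 : L.f ((g * t * g⁻¹) • x 0) = L.f (t • x 0) := by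
    rw [mul_smul, mul_smul, hg0]
    exact (htriv L _ hX1).2
  have e2 : L.f (t • x 0) * L.f (t⁻¹ • x 0) = 1 := by
    have h1 := (m1 t ht).2 _ hX2
    rw [smul_inv_smul, L.line.f1] at h1
    exact h1.symm
  rw [m3]
  refine ⟨mul_mem hgt hti, ?_⟩
  have e3 := (m1 _ hgt).2 _ hX2
  rw [mul_smul, e3, e1, e2]

end Pool.Agent.H59.SG
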