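import Pool.Agent.H78.S.Targets

/-!
# Theorem S (MP_9d0bb7_lc): row P27 (helper59)
-/

set_option autoImplicit false

open Set Pool.Agent.H77.BC
open scoped Pointwise

namespace Pool.Agent.H59.SG

open Pool.Agent.H78.S

/-- the permutations of the letters different from `0`, `1` -/
def xt {n : ℕ} (π : Equiv.Perm (Fin n)) : Equiv.Perm (Fin (n + 2)) :=
  Equiv.Perm.decomposeFin.symm (0, Equiv.Perm.decomposeFin.symm (0, π))

theorem xt_inj {n : ℕ} : Function.Injective (xt (n := n)) := by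
  intro a b h
  have h1 := Equiv.Perm.decomposeFin.symm.injective h
  have h2 := Equiv.Perm.decomposeFin.symm.injective (Prod.mk.injEq _ _ _ _ ▸ h1).2
  exact (Prod.mk.injEq _ _ _ _ ▸ h2).2

theorem xt_zero {n : ℕ} (π : Equiv.Perm (Fin n)) : xt π 0 = 0 := by
  unfold xt
  rw [Equiv.Perm.decomposeFin_symm_apply_zero]

theorem xt_one {n : ℕ} (π : Equiv.Perm (Fin n)) : xt π 1 = 1 := by
  unfold xt
  rw [Equiv.Perm.decomposeFin_symm_apply_one, Equiv.Perm.decomposeFin_symm_apply_zero]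
  simp

theorem ctx_le {M : Type} {U : RU M} {G S : Type} [Group G] [MulAction G S] [Cod M G]
    [Cod M S] [DG U G] [Ful U S] (hact : DFn U (fun p : G × S => p.1 • p.2)) {H : Subgroup G}
    {X : Set S} {T : Subgroup G} {o e : S} (hctx : Ctx U H X T o e) : T ≤ H := by
  rw [hctx.comp]
  have hD : U.D ((Fx H o : Subgroup G) : Set G) := by
    have e1 : ((Fx H o : Subgroup G) : Set G) = {g | g ∈ (H : Set G) ∧ g • o = o} := by
      ext g
      rfl
    rw [e1]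
    exact D_and hctx.conn.1
      (D_eqf (DFn_comp (g := fun p : G × S => p.1 • p.2) hact (DFn_pair DFn_id (DFn_const o)))
        (DFn_const o))
  have h1 : cc U (Fx H o) ≤ Fx H o := by
    refine sInf_le ⟨le_rfl, hD, ?_⟩
    rw [Subgroup.relIndex_self]
    exact one_ne_zero
  exact h1.trans inf_le_left

theorem ctx_mem {M : Type} {U : RU M} {G S : Type} [Group G] [MulAction G S] [Cod M G]
    [Cod M S] [DG U G] [Ful U S] (hact : DFn U (fun p : G × S => p.1 • p.2)) {H : Subgroup G}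
    {X : Set S} {T : Subgroup G} {o e : S} (hctx : Ctx U H X T o e) : ∀ t ∈ T, t • e ∈ X := by
  intro t ht
  have h1 := ctx_le hact hctx ht
  have h2 := hctx.mem
  rw [hctx.orb] at h2 ⊢
  obtain ⟨h, hh, rfl⟩ := h2
  exact ⟨t * h, mul_mem h1 hh, by rw [mul_smul]⟩

theorem pf_P27 (hP21 : T_P21) (hNTT : T_NTT) (hSYM : T_SYM) (hLCJ : T_LCJ) (hLFI : T_LFI)
    (hHIC : T_HIC) : T_P27 := by
  intro M U G S _ _ _ _ n x hF hI hn1 hne hKK
  have _ := hF.dg
  have _ := hF.ful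
  have hact := hF.act
  have h10 : (1 : Fin (n + 2)) ≠ 0 := by simp
  obtain ⟨E, hE⟩ := hne 1 h10
  obtain ⟨hmulP, hex⟩ := hSYM U x hF
  choose gs hgs using hex
  have hctx1 := (hHIC U x hF 1 h10).1
  obtain ⟨hfin, -, -⟩ := hLFI U hact _ _ _ _ _ hctx1
  have hfin' : (LL U G x 1).Finite := hfin
  -- the map
  have hmaps : ∀ π : Equiv.Perm (Fin n), mv (gs (xt π)) E ∈ LL U G x 1 ∧
      kap (TT U G x 0) (mv (gs (xt π)) E) = cj (gs (xt π))⁻¹ (kap (TT U G x 0) E) := by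
    intro π
    obtain ⟨l1, l2, -⟩ := hLCJ U x hF (gs (xt π)) (xt π) (hgs _) (xt_zero π) 1 h10 E hE
    rw [xt_one] at l1
    exact ⟨l1, l2⟩
  have hinj : Function.Injective (fun π : Equiv.Perm (Fin n) => mv (gs (xt π)) E) := by
    intro π π' hππ
    by_contra hne'
    have hσ : xt π ≠ xt π' := fun h => hne' (xt_inj h)
    set σ := xt π with hσd
    set τ := xt π' with hτd
    have hcjeq : cj (gs σ)⁻¹ (kap (TT U G x 0) E) = cj (gs τ)⁻¹ (kap (TT U G x 0) E) := by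
      rw [← (hmaps π).2, ← (hmaps π').2]
      exact congrArg _ hππ
    set κ : Subgroup G := kap (TT U G x 0) E with hκ
    have hp : Pm x ((gs τ)⁻¹ * gs σ) (τ⁻¹ * σ) :=
      (hmulP _ _ _ _ (hmulP _ _ _ _ (hgs τ) (hgs τ)).2 (hgs σ)).1
    set p := (gs τ)⁻¹ * gs σ with hpd
    set ρ := τ⁻¹ * σ with hρd
    have hρ0 : ρ 0 = 0 := by
      rw [hρd, Equiv.Perm.mul_apply, hσd, xt_zero, Equiv.Perm.inv_eq_iff_eq, hτd, xt_zero]
    have hρ1 : ρ 1 = 1 := by
      rw [hρd, Equiv.Perm.mul_apply, hσd, xt_one, Equiv.Perm.inv_eq_iff_eq, hτd, xt_one]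
    have hρ : ρ ≠ 1 := by
      intro h
      apply hσ
      rw [hρd, inv_mul_eq_one] at h
      exact h.symm
    have hpk : cj p⁻¹ κ = κ := by
      ext y
      rw [mem_cj]
      have h1 : p⁻¹ * y * p⁻¹⁻¹ ∈ κ ↔ gs τ * y * (gs τ)⁻¹ ∈ cj (gs σ)⁻¹ κ := by
        rw [mem_cj]
        have : p⁻¹ * y * p⁻¹⁻¹ = (gs σ)⁻¹ * (gs τ * y * (gs τ)⁻¹) * (gs σ)⁻¹⁻¹ := by
          rw [hpd]; group
        rw [this]
      have h2 : y ∈ κ ↔ gs τ * y * (gs τ)⁻¹ ∈ cj (gs τ)⁻¹ κ := by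
        rw [mem_cj]
        have : (gs τ)⁻¹ * (gs τ * y * (gs τ)⁻¹) * (gs τ)⁻¹⁻¹ = y := by group
        rw [this]
      rw [h1, h2, hcjeq]
    obtain ⟨-, -, hcom⟩ := hP21 U x hF hI p ρ hp hρ0 1 h10 hρ1 E hE hpk
    -- a moved letter
    have hexl : ∃ l, ρ l ≠ l := by
      by_contra h
      push Not at h
      exact hρ (Equiv.ext h)
    obtain ⟨l, hl⟩ := hexl
    have hl0 : l ≠ 0 := by
      intro h
      rw [h] at hl
      exact hl hρ0
    have hm0 : ρ l ≠ 0 := by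
      intro h
      apply hl0
      apply ρ.injective
      rw [h, hρ0]
    have hκ1 : κ ∈ KK U G x 1 := ⟨E, hE, rfl⟩
    rw [hKK 1 h10 l hl0] at hκ1
    obtain ⟨F, hFL, hFk⟩ := hκ1
    obtain ⟨l1, l2, l3⟩ := hLCJ U x hF p ρ hp hρ0 l hl0 F hFL
    obtain ⟨L⟩ := hFL
    obtain ⟨L'⟩ := l1
    obtain ⟨φ, hφ⟩ := l3 L L'
    have hctxl := (hHIC U x hF l hl0).1
    have hctxm := (hHIC U x hF (ρ l) hm0).1
    refine hNTT U x hF l (ρ l) hl0 hm0 (Ne.symm hl) F (mv p F) L L' φ ?_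
    intro t ht
    obtain ⟨-, hc2⟩ := hcom t ht
    have hk' : p * t * p⁻¹ * t⁻¹ ∈ kap (TT U G x 0) (mv p F) := by
      rw [l2]
      have : kap (TT U G x 0) F = κ := hFk
      rw [this, hpk]
      exact hc2
    have hp0 : p⁻¹ • x 0 = x 0 := by
      rw [inv_smul_eq_iff, hp 0, hρ0]
    have h1 : t • x 0 ∈ XX U G x l := ctx_mem hact hctxl t ht
    have h2 : t • x 0 ∈ XX U G x (ρ l) := ctx_mem hact hctxm t ht
    have e1 : L'.f ((p * t * p⁻¹) • x 0) = φ (L.f (t • x 0)) := by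
      rw [mul_smul, mul_smul, hp0]
      exact (hφ _ h1).2
    have e2 : (p * t * p⁻¹) • x 0 = (p * t * p⁻¹ * t⁻¹) • (t • x 0) := by
      rw [← mul_smul]
      congr 1
      group
    have h3 := (Subgroup.mem_inf.1 hk').2
    rw [Subgroup.mem_iInf] at h3
    have h4 := h3 (t • x 0)
    rw [MulAction.mem_stabilizer_iff] at h4
    have h5 : (t • x 0, t • x 0) ∈ mv p F := by
      rw [L'.eq]
      exact ⟨h2, h2, rfl⟩
    have h6 : (p * t * p⁻¹ * t⁻¹) • (t • x 0) ∈ {z : S | (t • x 0, z) ∈ mv p F} := by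
      rw [← h4]
      exact Set.smul_mem_smul_set h5
    have h7 : (t • x 0, (p * t * p⁻¹ * t⁻¹) • (t • x 0)) ∈ Rel (XX U G x (ρ l)) L'.f := by
      rw [← L'.eq]
      exact h6
    rw [← e1, e2]
    exact h7.2.2
  have hsub : (fun π : Equiv.Perm (Fin n) => mv (gs (xt π)) E) '' univ ⊆ LL U G x 1 := by
    rintro F ⟨π, -, rfl⟩
    exact (hmaps π).1
  have h1 := Set.ncard_le_ncard hsub hfin'
  rw [Set.ncard_image_of_injective _ hinj, Set.ncard_univ, Nat.card_eq_fintype_card,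
    Fintype.card_perm, Fintype.card_fin] at h1
  exact h1

end Pool.Agent.H59.SG
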